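import Pool.Agent.TH710.WH.Defs
import Pool.Agent.W790.HP.HPF
import Pool.Agent.W74.HP.HPI
import Pool.Agent.W405.HP.Hit
import Pool.Agent.W583.HP.FG
import Pool.Agent.W253.HP.Sch
import Pool.Agent.W376.HP.NRM

/-!
Rational schemes over finitely generated fields have dense rational points and the weak Hilbert
property.
-/

set_option autoImplicit false

open AlgebraicGeometry CategoryTheory

namespace Pool.Agent.TH710.WH

theorem whp_of_rational {k : Type} [Field k] [CharZero k]
    (hk : ∃ S : Finset k, IntermediateField.adjoin ℚ (S : Set k) = ⊤) {K : Type} [Field K]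
    [Algebra k K] (hK : PurelyTranscendental k K) (X : Scheme.{0}) [IsIntegral X]
    (f : X ⟶ Spec (CommRingCat.of k)) [LocallyOfFiniteType f] (hX : HasFunctionField k K X f)
    (hnorm : ∀ x : X, IsIntegrallyClosed (X.presheaf.stalk x)) :
    RationalPointsDense k X f ∧ WeakHilbertProperty k X f := by
  obtain ⟨S, hS⟩ := hk
  have hkN : W560.HP.HilbNR k := Pool.Agent.W405.HP.hit k (Pool.Agent.W583.HP.fg k S hS)
  obtain ⟨σ, hσ, t, ht, hadj⟩ := hK
  have h1 : W560.HP.HPF k (⊤ : IntermediateField k K) :=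
    Pool.Agent.W790.HP.hpf k K σ t ⊤ hkN ht hadj fun _ _ => IntermediateField.mem_top
  have h2 : W560.HP.HPF k K :=
    Pool.Agent.W74.HP.hpi k _ _ ⟨IntermediateField.topEquiv⟩ h1
  obtain ⟨e, he⟩ := hX
  have h3 : W560.HP.HilbertProperty k X f := Pool.Agent.W253.HP.sch k X f _ e he h2
  refine ⟨?_, ?_⟩
  · have h4 := h3 0 (fun i => i.elim0) (fun i => i.elim0) (fun i => i.elim0)
      (fun i => i.elim0) (fun i => i.elim0) (fun i => i.elim0)
    refine h4.mono ?_
    rintro x ⟨s, hs, hx, -⟩
    exact ⟨s, hs, hx⟩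
  · intro q Y π hY _ hf hs he'
    refine h3 q Y π hY hf hs fun i hi => he' i ?_
    have := hY i
    have := Pool.Agent.W376.HP.nrm X (Y i) (π i) hnorm (hf i) (hs i) hi
    infer_instance

end Pool.Agent.TH710.WH
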