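import Pool.Agent.W602.GT.MordDefs

/-!
Definitions: unirational and rationally connected varieties, by generic points.
-/

set_option autoImplicit false

open MvPolynomial Pool.Agent.W602.GT

namespace Pool.Agent.TH710.WH

variable {n : ℕ}

/-- The projective variety `V` with generic point `y` is unirational: it is the closure of the image
of a rational map from affine space, given by polynomials `P 0, ..., P n`. -/
def Unirational (k : Type) [Field k] {K : Type} [Field K] [Algebra k K] (y : Fin (n + 1) → K) :
    Prop :=
  ∃ (m : ℕ) (P : Fin (n + 1) → MvPolynomial (Fin m) k),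
    ∀ G : MvPolynomial (Fin (n + 1)) k, IsForm G → (val y G = 0 ↔ aeval P G = 0)

/-- The projective variety `V` with generic point `y` is rationally connected: over some
algebraically closed field `Ω` containing `k` there is a rational curve in `V` (given by
polynomials `f 0, ..., f n` in one variable) joining two independent generic points `f(0)`, `f(1)`
of (the cone over) `V`: the relations between them over `k` hold for all pairs of points of `V`. -/
def RationallyConnected (k : Type) [Field k] {K : Type} [Field K] [Algebra k K]
    (y : Fin (n + 1) → K) : Prop :=
  ∃ (Ω : Type) (_ : Field Ω) (_ : Algebra k Ω) (f : Fin (n + 1) → Polynomial Ω),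
    IsAlgClosed Ω ∧
    (∀ G : MvPolynomial (Fin (n + 1)) k, IsForm G → val y G = 0 → aeval f G = 0) ∧
    ∀ G : MvPolynomial (Fin (n + 1) ⊕ Fin (n + 1)) k,
      aeval (Sum.elim (fun i => (f i).eval 0) (fun i => (f i).eval 1)) G = 0 →
      ∀ a ∈ VarPts k y, ∀ b ∈ VarPts k y, aeval (Sum.elim a b) G = 0

end Pool.Agent.TH710.WH
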