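import Pool.Agent.TH710.WH.Desc
import Pool.Agent.TH710.WH.Defs2
import Pool.Agent.TH710.NU.Affine
import Pool.Agent.W602.GT.War

/-!
Rationally connected varieties given by nested sums are linear.
-/

set_option autoImplicit false

open FF MvPolynomial Pool.Agent.W603.LV Pool.Agent.W603.GR Pool.Agent.W603.GW
  Pool.Agent.W602.GT Pool.Agent.W603.GX Pool.Agent.W603.GY Pool.Agent.TH710.ND
  Pool.Agent.TH710.SP

namespace Pool.Agent.TH710.WH

variable {k : Type} [Field k] {n : ℕ} {ι : Type}

theorem gate_map {k1 : Type} [Field k1] (φ : k →+* k1) (L : List (ℕ × ℕ)) :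
    ∀ p : MvPolynomial (Fin (n + 1)) k, GateL IsLin L p → GateL IsLin L (MvPolynomial.map φ p) := by
  induction L with
  | nil =>
    rintro p ⟨a, rfl⟩
    refine ⟨fun j => φ (a j), ?_⟩
    simp only [map_sum, map_mul, map_C, map_X]
  | cons ke L ih =>
    rintro p ⟨c, g, hg, rfl⟩
    refine ⟨fun i => φ (c i), fun i => MvPolynomial.map φ (g i), fun i => ih _ (hg i), ?_⟩
    simp only [map_sum, map_mul, map_C, map_pow]

theorem nested_map {k1 : Type} [Field k1] (φ : k →+* k1) {s N H : ℕ}
    {F : MvPolynomial (Fin (n + 1)) k} (h : IsNested s N H F) :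
    IsNested s N H (MvPolynomial.map φ F) := by
  obtain ⟨r, e, L, c, g, h1, h2, h3, h4, h5, h6⟩ := h
  refine ⟨r, e, L, fun i => φ (c i), fun i => MvPolynomial.map φ (g i), h1, h2, h3, h4,
    fun i => gate_map φ L _ (h5 i), ?_⟩
  rw [h6]
  simp only [map_sum, map_mul, map_C, map_pow]

/-- **Maps from special varieties.** -/
theorem hull_zero [IsAlgClosed k] [CharZero k] {F : ι → MvPolynomial (Fin (n + 1)) k}
    {s N H : ℕ} (hF : ∀ i, IsNested s N H (F i)) (hN : bnd n s H ≤ N)
    {K : Type} [Field K] [Algebra k K] {w : ℕ} (hdim : Algebra.trdeg k K = w) (hwn : w ≤ n)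
    {y : Fin (n + 1) → K} (hy0 : y ≠ 0) (hmem : ∀ i, Pool.Agent.W602.GT.val y (F i) = 0)
    (hs : Special k K w (fun _ => False)) :
    ∀ x ∈ Hull k y, ∀ i, Pool.Agent.W602.GT.val x (F i) = 0 := by
  classical
  have hinf : Infinite k := inferInstance
  have hN1 : 1 ≤ N := le_trans (by unfold bnd; omega) hN
  have hgen : ∀ o : Place k K → ℤ, ∀ A : CFam k K, (∃ c',
      Gen (OffAny (noQ k n) y) N (2 * s) ((H + 1) * (2 * s * (2 * s))) o IsLin y c' A) →
      ∀ i a b, ∃ c : k, A.T i a / A.T i b = algebraMap k K c := by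
    intro o
    have hs' : Special k K w (OffAny (noQ k n) y) := by rw [offQ]; exact hs
    refine const_of_special (N := N) (s := 2 * s) (c := (H + 1) * (2 * s * (2 * s))) hdim _
      ?_ ?_ hs'
    · rintro A ⟨c', hA⟩
      exact hA.ok.1.mono hA.ok.2
    · refine le_trans ?_ hN
      refine le_trans (Nat.mul_le_mul_right _ hwn) ?_
      unfold bnd
      omega
  have hbot : ∀ {z : K}, z ∈ (⊥ : IntermediateField k K) ↔ ∃ c : k, z = algebraMap k K c := by
    intro z
    rw [IntermediateField.mem_bot]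
    constructor
    · rintro ⟨c, hc⟩
      exact ⟨c, hc.symm⟩
    · rintro ⟨c, hc⟩
      exact ⟨c, hc.symm⟩
  have hroot : Root (⊥ : IntermediateField k K) := by
    intro z d hd hz
    rw [hbot] at hz ⊢
    obtain ⟨c, hc⟩ := hz
    have h1 : IsAlgebraic k (z ^ d) := by
      rw [hc]
      exact isAlgebraic_algebraMap c
    exact const_of_algebraic (h1.of_pow hd)
  obtain ⟨lq, hG, hlq⟩ := good_of (W := (⊥ : IntermediateField k K)) (Q := noQ k n) (o := fun _ => 0)
    hF (fun j => j.elim) hN1 hmem (fun j => j.elim) (fun P _ j => j.elim)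
    hroot (fun c' A hA i a b => hbot.2 (hgen _ A ⟨c', hA⟩ i a b))
  have hinv : ∀ x ∈ Hull k y, InV (PrC (⊥ : IntermediateField k K) y) y
      (fun i => algebraMap k K (x i)) := by
    intro x hx
    constructor
    · intro l hl
      rw [lin_algMap, hx l hl, map_zero]
    · rintro ⟨p1, p2⟩ ⟨h1, h2, h3⟩
      obtain ⟨c, hc⟩ := hbot.1 h3
      simp only at h1 h2 hc ⊢
      have h4 : lin (p1 - c • p2) y = 0 := by
        have h5 : lin (p1 - c • p2) y = lin p1 y - algebraMap k K c * lin p2 y := by
          unfold lin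
          simp only [Pi.sub_apply, Pi.smul_apply, smul_eq_mul, map_sub, map_mul, sub_mul,
            Finset.sum_sub_distrib, Finset.mul_sum, mul_assoc]
        rw [h5, ← hc, div_mul_cancel₀ _ h2, sub_self]
      have h6 := hx _ h4
      have h5 : lin (p1 - c • p2) x = lin p1 x - c * lin p2 x := by
        unfold lin
        simp only [Pi.sub_apply, Pi.smul_apply, smul_eq_mul, map_sub, map_mul, sub_mul,
          Finset.sum_sub_distrib, Finset.mul_sum, mul_assoc, Algebra.algebraMap_self,
          RingHom.id_apply]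
      rw [h5, sub_eq_zero] at h6
      rw [lin_algMap, lin_algMap, h6, map_mul, hc, Algebra.algebraMap_self, RingHom.id_apply]
  intro x hx i
  have h1 := hG.van K _ (hinv x hx) i
  rw [val_algMap] at h1
  exact (map_eq_zero _).1 h1

theorem special_ratFunc [IsAlgClosed k] [CharZero k] :
    Special k (RatFunc k) 1 (fun _ => False) := by
  have h1 : AlgebraicIndependent k (fun _ : Fin 1 => (RatFunc.X : RatFunc k)) :=
    algebraicIndependent_unique_type_iff.2 RatFunc.transcendental_X
  have htop : IntermediateField.adjoin k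
      (Set.range fun _ : Fin 1 => (RatFunc.X : RatFunc k)) = ⊤ := by
    rw [Set.range_const]
    exact RatFunc.adjoin_X
  refine special_of_frame (fun _ => RatFunc.X) ?_ htop fun _ _ h => h
  rw [h1.isTranscendenceBasis_iff_isAlgebraic]
  apply alg_adjoin
  rw [htop]
  exact ⟨fun x => isAlgebraic_algebraMap (A := RatFunc k)
    (⟨x, trivial⟩ : (⊤ : IntermediateField k (RatFunc k)))⟩

theorem trdeg_ratFunc : Algebra.trdeg k (RatFunc k) = (1 : ℕ) := by
  have h1 : AlgebraicIndependent k (fun _ : Fin 1 => (RatFunc.X : RatFunc k)) :=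
    algebraicIndependent_unique_type_iff.2 RatFunc.transcendental_X
  have htop : IntermediateField.adjoin k
      (Set.range fun _ : Fin 1 => (RatFunc.X : RatFunc k)) = ⊤ := by
    rw [Set.range_const]
    exact RatFunc.adjoin_X
  have h2 : IsTranscendenceBasis k (fun _ : Fin 1 => (RatFunc.X : RatFunc k)) := by
    rw [h1.isTranscendenceBasis_iff_isAlgebraic]
    apply alg_adjoin
    rw [htop]
    exact ⟨fun x => isAlgebraic_algebraMap (A := RatFunc k)
      (⟨x, trivial⟩ : (⊤ : IntermediateField k (RatFunc k)))⟩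
  have h3 := h2.cardinalMk_eq_trdeg
  rw [Cardinal.mk_fin] at h3
  exact h3.symm

end Pool.Agent.TH710.WH
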