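import Pool.Agent.TH710.WH.Conn

/-!
Rationally connected varieties given by nested sums are linear, continued.
-/

set_option autoImplicit false

open FF MvPolynomial Pool.Agent.W603.LV Pool.Agent.W603.GR Pool.Agent.W603.GW
  Pool.Agent.W602.GT Pool.Agent.W603.GX Pool.Agent.W603.GY Pool.Agent.TH710.ND
  Pool.Agent.TH710.SP

namespace Pool.Agent.TH710.WH

variable {k : Type} [Field k] {n : ℕ} {ι : Type}

/-- values of a polynomial along a line -/
noncomputable def along {Ω : Type} [Field Ω] [Algebra k Ω] (p q : Fin (n + 1) → Ω)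
    (G : MvPolynomial (Fin (n + 1)) k) : Polynomial Ω :=
  aeval (fun i => Polynomial.C (p i) + Polynomial.X * Polynomial.C (q i)) G

theorem along_eval {Ω : Type} [Field Ω] [Algebra k Ω] (p q : Fin (n + 1) → Ω)
    (G : MvPolynomial (Fin (n + 1)) k) (u : Ω) :
    (along p q G).eval u = aeval (fun i => p i + u * q i) G := by
  unfold along
  have h1 := MvPolynomial.comp_aeval_apply
    (f := fun i => Polynomial.C (p i) + Polynomial.X * Polynomial.C (q i))
    ((Polynomial.aeval u : Polynomial Ω →ₐ[Ω] Ω).restrictScalars k) G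
  simp only [AlgHom.restrictScalars_apply, map_add, map_mul, Polynomial.aeval_C,
    Polynomial.aeval_X, Algebra.algebraMap_self, RingHom.id_apply] at h1
  rw [← h1, Polynomial.coe_aeval_eq_eval]

theorem const_zero {G : MvPolynomial (Fin (n + 1)) k} {d : ℕ} (hd : G.IsHomogeneous d)
    (h : d ≠ 0) : aeval (0 : Fin (n + 1) → k) G = 0 := by
  rw [MvPolynomial.aeval_zero, Algebra.algebraMap_self, RingHom.id_apply]
  by_contra h0
  rw [constantCoeff_eq] at h0
  have h1 := hd h0
  simp only [map_zero] at h1
  exact h h1.symm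

theorem form_zero {K : Type} [Field K] [Algebra k K] {y : Fin (n + 1) → K}
    {G : MvPolynomial (Fin (n + 1)) k} (hG : IsForm G)
    (hy : Pool.Agent.W602.GT.val y G = 0) : aeval (0 : Fin (n + 1) → k) G = 0 := by
  obtain ⟨d, hd⟩ := hG
  by_cases h0 : d = 0
  · subst h0
    rw [← totalDegree_zero_iff_isHomogeneous] at hd
    have h2 := totalDegree_eq_zero_iff_eq_C.1 hd
    unfold Pool.Agent.W602.GT.val at hy
    rw [h2, aeval_C, map_eq_zero] at hy
    rw [h2, aeval_C, hy, map_zero]
  · exact const_zero hd h0

/-- **Rationally connected nested varieties are linear.** -/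
theorem linear_of_connected [IsAlgClosed k] [CharZero k] (hn : 1 ≤ n)
    {F : ι → MvPolynomial (Fin (n + 1)) k} {s N H : ℕ} (hF : ∀ i, IsNested s N H (F i))
    (hN : bnd n s H ≤ N) {K : Type} [Field K] [Algebra k K] {w : ℕ} {y : Fin (n + 1) → K}
    (hy : SubVar F K w y) (hcomp : IsComponent F y) (hc : RationallyConnected k y) :
    IsLinear k y := by
  classical
  obtain ⟨Ω, _, _, f, hΩ, hf, hgp⟩ := hc
  have hch : CharZero Ω := charZero_of_injective_algebraMap (algebraMap k Ω).injective
  have hinf : Infinite Ω := inferInstance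
  have hFf : ∀ i, IsForm (F i) := fun i => (hF i).form
  obtain ⟨Hc, hHf, hHy, hcone⟩ := hcomp
  intro a ha b hb c c' hne
  refine ⟨hne, fun G0 hG0 hyG0 => ?_⟩
  by_contra hne0
  set p0 : Fin (n + 1) → Ω := fun i => (f i).eval 0 with hp0
  set p1 : Fin (n + 1) → Ω := fun i => (f i).eval 1 with hp1
  -- the value of `G0` at `c f(0) + c' f(1)` is not zero
  have h1 : aeval (fun i => algebraMap k Ω c * p0 i + algebraMap k Ω c' * p1 i) G0 ≠ 0 := by
    intro h0
    apply hne0
    have h2 := hgp (aeval (fun i => C c * X (Sum.inl i) + C c' * X (Sum.inr i) :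
      Fin (n + 1) → MvPolynomial (Fin (n + 1) ⊕ Fin (n + 1)) k) G0) (by
      rw [← h0, ← AlgHom.comp_apply, comp_aeval]
      congr 2
      funext i
      simp only [map_add, map_mul, aeval_C, aeval_X, Sum.elim_inl, Sum.elim_inr]) a ha b hb
    rw [← AlgHom.comp_apply, comp_aeval] at h2
    unfold Pool.Agent.W602.GT.val
    rw [← h2]
    congr 2
    funext i
    simp only [map_add, map_mul, aeval_C, aeval_X, Sum.elim_inl, Sum.elim_inr, Pi.add_apply,
      Pi.smul_apply, smul_eq_mul, Algebra.algebraMap_self, RingHom.id_apply]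
  -- the value of `Hc` at `f(0)` is not zero
  have h2 : aeval p0 Hc ≠ 0 := by
    intro h0
    obtain ⟨z0, hz1, hz2⟩ := specialise y Hc hHy
    have hz0 : z0 ∈ VarPts k y := by
      refine ⟨?_, fun G _ hG => hz2 G hG⟩
      rintro rfl
      have h3 : ∃ i, y i ≠ 0 := by
        by_contra hcon
        push Not at hcon
        exact hy.ne (funext hcon)
      obtain ⟨i, hi⟩ := h3
      obtain ⟨z1, hz3, hz4⟩ := specialise y (Hc * X i) (by
        rw [map_mul, aeval_X]
        exact mul_ne_zero hHy hi)
      rw [map_mul, aeval_X] at hz3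
      obtain ⟨d, hd⟩ := hHf
      by_cases hd0 : d = 0
      · subst hd0
        -- a constant form: use `z1`
        have h5 := hgp (rename Sum.inl Hc) (by
          rw [aeval_rename]
          exact h0) z1 ⟨fun h => hz3 (by rw [h]; simp), fun G _ hG => hz4 G hG⟩ z1
          ⟨fun h => hz3 (by rw [h]; simp), fun G _ hG => hz4 G hG⟩
        rw [aeval_rename] at h5
        exact (left_ne_zero_of_mul hz3) h5
      · exact hz1 (const_zero hd hd0)
    have h5 := hgp (rename Sum.inl Hc) (by
      rw [aeval_rename]
      exact h0) z0 hz0 z0 hz0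
    rw [aeval_rename] at h5
    exact hz1 h5
  -- a point of the line through `f(0)` and `f(1)`
  let q : Fin (n + 1) → Ω := fun i => algebraMap k Ω c * p0 i + algebraMap k Ω c' * p1 i - p0 i
  have h3 : along p0 q (Hc * G0) ≠ 0 := by
    unfold along
    rw [map_mul]
    apply mul_ne_zero
    · intro h0
      apply h2
      have h4 := along_eval p0 q Hc 0
      unfold along at h4
      rw [h0, Polynomial.eval_zero] at h4
      rw [h4]
      congr 2
      funext i
      rw [zero_mul, add_zero]
    · intro h0
      apply h1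
      have h4 := along_eval p0 q G0 1
      unfold along at h4
      rw [h0, Polynomial.eval_zero] at h4
      rw [h4]
      congr 2
      funext i
      simp only [q]
      ring
  obtain ⟨u, hu⟩ : ∃ u : Ω, (along p0 q (Hc * G0)).eval u ≠ 0 := by
    by_contra hcon
    push Not at hcon
    exact h3 (Polynomial.funext fun u => by rw [hcon u, Polynomial.eval_zero])
  rw [along_eval] at hu
  let z : Fin (n + 1) → Ω := fun i => p0 i + u * q i
  -- the equations at this point
  let y1 : Fin (n + 1) → RatFunc Ω := fun i => algebraMap (Polynomial Ω) (RatFunc Ω) (f i)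
  have hval : ∀ G : MvPolynomial (Fin (n + 1)) k, aeval f G = 0 →
      Pool.Agent.W602.GT.val y1 (MvPolynomial.map (algebraMap k Ω) G) = 0 := by
    intro G hG
    unfold Pool.Agent.W602.GT.val
    have h5 : aeval y1 (MvPolynomial.map (algebraMap k Ω) G) =
        algebraMap (Polynomial Ω) (RatFunc Ω)
          (aeval f (MvPolynomial.map (algebraMap k Ω) G)) :=
      MvPolynomial.aeval_algebraMap_apply (RatFunc Ω) f _
    rw [h5, MvPolynomial.aeval_map_algebraMap, hG, map_zero]
  have hy1 : y1 ≠ 0 := by
    intro h0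
    have h5 : ∀ i, f i = 0 := by
      intro i
      have h6 := congrFun h0 i
      simp only [y1, Pi.zero_apply] at h6
      exact (map_eq_zero_iff _ (IsFractionRing.injective (Polynomial Ω) (RatFunc Ω))).1 h6
    apply hu
    have h6 : (fun i => p0 i + u * q i) = (0 : Fin (n + 1) → Ω) := by
      funext i
      simp only [q, hp0, hp1, h5, Polynomial.eval_zero]
      simp
    rw [h6, map_mul]
    have h7 := form_zero hG0 hyG0
    have h8 : aeval (0 : Fin (n + 1) → Ω) G0 = 0 := by
      have h9 := MvPolynomial.aeval_algebraMap_apply Ω (0 : Fin (n + 1) → k) G0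
      rw [h7, map_zero] at h9
      rw [← h9]
      congr 2
      funext i
      simp
    rw [h8, mul_zero]
  have hhull := hull_zero (k := Ω) (F := fun i => MvPolynomial.map (algebraMap k Ω) (F i))
    (fun i => nested_map _ (hF i)) hN (K := RatFunc Ω) (w := 1) trdeg_ratFunc hn hy1
    (fun i => hval (F i) (hf (F i) (hFf i) (hy.mem i))) special_ratFunc z (by
      intro l hl
      have h5 : ∑ i, Polynomial.C (l i) * f i = 0 := by
        apply IsFractionRing.injective (Polynomial Ω) (RatFunc Ω)
        rw [map_zero, ← hl, map_sum]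
        unfold lin
        refine Finset.sum_congr rfl fun i _ => ?_
        rw [map_mul]
        rfl
      have h6 : ∀ v : Ω, ∑ i, l i * (f i).eval v = 0 := by
        intro v
        have h7 := congrArg (Polynomial.eval v) h5
        rw [Polynomial.eval_finsetSum, Polynomial.eval_zero] at h7
        simpa only [Polynomial.eval_mul, Polynomial.eval_C] using h7
      rw [lin_base]
      have h7 : ∑ i, l i * z i = (1 - u + u * algebraMap k Ω c) * ∑ i, l i * (f i).eval 0 +
          u * algebraMap k Ω c' * ∑ i, l i * (f i).eval 1 := by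
        rw [Finset.mul_sum, Finset.mul_sum, ← Finset.sum_add_distrib]
        refine Finset.sum_congr rfl fun i _ => ?_
        simp only [z, q, hp0, hp1]
        ring
      rw [h7, h6, h6, mul_zero, mul_zero, add_zero])
  -- specialisation
  obtain ⟨z0, hz1, hz2⟩ := specialise z (Hc * G0) hu
  rw [map_mul] at hz1
  have hz0 : z0 ≠ 0 := by
    rintro rfl
    exact (right_ne_zero_of_mul hz1) (form_zero hG0 hyG0)
  have hzc : z0 ∈ Cone F := by
    refine ⟨hz0, fun i => hz2 (F i) ?_⟩
    have h5 := hhull i
    unfold Pool.Agent.W602.GT.val at h5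
    rwa [MvPolynomial.aeval_map_algebraMap] at h5
  have hzv := hcone z0 hzc (left_ne_zero_of_mul hz1)
  exact (right_ne_zero_of_mul hz1) (hzv.2 G0 hG0 hyG0)

end Pool.Agent.TH710.WH
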