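import Pool.Agent.TH710.WH.Conn2

/-!
Linear, rational, unirational and rationally connected varieties.
-/

set_option autoImplicit false

open FF MvPolynomial Pool.Agent.W603.LV Pool.Agent.W603.GR Pool.Agent.W603.GW
  Pool.Agent.W602.GT Pool.Agent.W603.GX Pool.Agent.W603.GY Pool.Agent.TH710.ND
  Pool.Agent.TH710.SP

namespace Pool.Agent.TH710.WH

variable {k : Type} [Field k] {n : ℕ} {ι : Type} {K : Type} [Field K] [Algebra k K]

theorem var_of_linear [IsAlgClosed k] {y : Fin (n + 1) → K} (hy0 : y ≠ 0) (hl : IsLinear k y) :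
    ∀ x ∈ Hull k y, ∀ G : MvPolynomial (Fin (n + 1)) k, IsForm G →
      Pool.Agent.W602.GT.val y G = 0 → Pool.Agent.W602.GT.val x G = 0 := by
  classical
  intro x hx G hG hyG
  let M : Submodule k (Fin (n + 1) → k) :=
    { carrier := {x | x = 0 ∨ x ∈ VarPts k y}
      zero_mem' := Or.inl rfl
      add_mem' := by
        rintro a b (rfl | ha) (rfl | hb)
        · left; simp
        · right; simpa using hb
        · right; simpa using ha
        · by_cases h0 : a + b = 0
          · exact Or.inl h0
          · right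
            have h1 := hl a ha b hb 1 1 (by simpa using h0)
            simpa using h1
      smul_mem' := by
        rintro c a (rfl | ha)
        · left; simp
        · by_cases h0 : c • a = 0
          · exact Or.inl h0
          · right
            have h1 := hl a ha a ha c 0 (by simpa using h0)
            simpa using h1 }
  by_cases hxM : x ∈ M
  · rcases hxM with rfl | h
    · exact form_zero hG hyG
    · exact h.2 G hG hyG
  exfalso
  obtain ⟨f, hf1, hf2⟩ := Submodule.exists_le_ker_of_notMem hxM
  let l : Fin (n + 1) → k := fun i => f (fun j => if i = j then 1 else 0)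
  have hlf : ∀ z : Fin (n + 1) → k, lin l z = f z := by
    intro z
    rw [lin_base, LinearMap.pi_apply_eq_sum_univ f z]
    exact Finset.sum_congr rfl fun i _ => by rw [smul_eq_mul, mul_comm]
  apply hf1
  rw [← hlf]
  apply hx
  by_contra hne
  obtain ⟨i, hi⟩ : ∃ i, y i ≠ 0 := by
    by_contra hcon
    push Not at hcon
    exact hy0 (funext hcon)
  obtain ⟨z0, hz1, hz2⟩ := specialise y (lf l * X i) (by
    rw [map_mul, aeval_X]
    have h1 := val_lf l y
    unfold Pool.Agent.W602.GT.val at h1
    rw [h1]
    exact mul_ne_zero hne hi)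
  rw [map_mul, aeval_X] at hz1
  have h1 := val_lf l z0
  unfold Pool.Agent.W602.GT.val at h1
  rw [h1] at hz1
  have hz0 : z0 ∈ M := Or.inr ⟨fun h => hz1 (by rw [h]; simp), fun G _ hG => hz2 G hG⟩
  exact (left_ne_zero_of_mul hz1) ((hlf z0).trans (hf2 hz0))

theorem unirational_of_var [Infinite k] {y : Fin (n + 1) → K}
    (hvar : ∀ x ∈ Hull k y, ∀ G : MvPolynomial (Fin (n + 1)) k, IsForm G →
      Pool.Agent.W602.GT.val y G = 0 → Pool.Agent.W602.GT.val x G = 0) : Unirational k y := by
  classical
  obtain ⟨r, m, v, -, h, -, -⟩ := exists_frame' (k := k) (y := y) (q := 0) (fun a => a.elim0)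
    linearIndependent_empty_type
  refine ⟨r, fun i => ∑ b, C (v b i) * X b, fun G hG => ⟨fun h0 => h.zero_of_hull fun x hx =>
    hvar x hx G hG h0, fun h0 => ?_⟩⟩
  have h1 := congrArg (aeval (fun b => lin (m b) y)) h0
  rw [map_zero, ← AlgHom.comp_apply, comp_aeval] at h1
  unfold Pool.Agent.W602.GT.val
  rw [← h1]
  congr 2
  funext i
  rw [map_sum]
  rw [h.dec i]
  refine Finset.sum_congr rfl fun b _ => ?_
  rw [map_mul, aeval_C, aeval_X]

theorem aeval_mul_form {A : Type} [CommRing A] [Algebra k A] (g : A) (Q : Fin (n + 1) → A)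
    {G : MvPolynomial (Fin (n + 1)) k} {d : ℕ} (hG : G.IsHomogeneous d) :
    aeval (fun i => g * Q i) G = g ^ d * aeval Q G := by
  rw [aeval_def, aeval_def, eval₂_eq', eval₂_eq', Finset.mul_sum]
  refine Finset.sum_congr rfl fun α hα => ?_
  have h2 : ∑ a, α a = d := by
    have := hG (mem_support_iff.1 hα)
    rw [← this, Finsupp.weight_apply, Finsupp.sum_fintype _ _ (by simp)]
    simp
  simp_rw [mul_pow]
  rw [Finset.prod_mul_distrib, Finset.prod_pow_eq_pow_sum, h2]
  ring

theorem unir_zero [Infinite k] {y : Fin (n + 1) → K} {m : ℕ}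
    {P : Fin (n + 1) → MvPolynomial (Fin m) k}
    (hP : ∀ G : MvPolynomial (Fin (n + 1)) k, IsForm G →
      (Pool.Agent.W602.GT.val y G = 0 ↔ aeval P G = 0))
    {G1 : MvPolynomial (Fin (n + 1)) k}
    (h : ∀ (α0 : k) (a0 : Fin m → k), aeval (fun i => α0 * eval a0 (P i)) G1 = 0) :
    ∀ v ∈ VarPts k y, aeval v G1 = 0 := by
  intro v hv
  rw [← sum_homogeneousComponent G1, map_sum]
  refine Finset.sum_eq_zero fun d _ => ?_
  refine hv.2 (homogeneousComponent d G1) ⟨d, homogeneousComponent_isHomogeneous d G1⟩ ?_
  rw [hP _ ⟨d, homogeneousComponent_isHomogeneous d G1⟩]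
  apply MvPolynomial.funext
  intro a0
  rw [map_zero]
  have h1 : G1 ∈ Pool.Agent.TH710.NU.idealOf (k := k) (fun i => eval a0 (P i)) := by
    unfold Pool.Agent.TH710.NU.idealOf
    rw [RingHom.mem_ker]
    change aeval (fun i => Polynomial.X * Polynomial.C (eval a0 (P i))) G1 = 0
    apply Polynomial.funext
    intro α0
    rw [Polynomial.eval_zero, ← h α0 a0]
    have h2 := MvPolynomial.comp_aeval_apply
      (f := fun i => (Polynomial.X * Polynomial.C (eval a0 (P i)) : Polynomial k))
      (Polynomial.aeval α0 : Polynomial k →ₐ[k] k) G1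
    simp only [map_mul, Polynomial.aeval_C, Polynomial.aeval_X, Algebra.algebraMap_self,
      RingHom.id_apply] at h2
    rw [← h2, Polynomial.coe_aeval_eq_eval]
  have h2 := Pool.Agent.TH710.NU.comp_of_idealOf h1 d
  unfold Pool.Agent.W602.GT.val at h2
  rw [← h2, ← aeval_eq_eval, ← AlgHom.comp_apply, comp_aeval]

theorem connected_of_unirational [Infinite k] {y : Fin (n + 1) → K} (h : Unirational k y) :
    RationallyConnected k y := by
  classical
  obtain ⟨m, P, hP⟩ := h
  let τ := (Fin m ⊕ Fin m) ⊕ Fin 2
  let R := MvPolynomial τ k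
  let Ω := AlgebraicClosure (FractionRing R)
  have hinj : Function.Injective (algebraMap R Ω) := by
    rw [IsScalarTower.algebraMap_eq R (FractionRing R) Ω]
    exact (algebraMap (FractionRing R) Ω).injective.comp (IsFractionRing.injective R _)
  let j : R →ₐ[k] Ω := IsScalarTower.toAlgHom k R Ω
  let xa : Fin m → R := fun l => X (Sum.inl (Sum.inl l))
  let xb : Fin m → R := fun l => X (Sum.inl (Sum.inr l))
  let f : Fin (n + 1) → Polynomial Ω := fun i =>
    (Polynomial.C (j (X (Sum.inr 0))) +
      Polynomial.X * Polynomial.C (j (X (Sum.inr 1)) - j (X (Sum.inr 0)))) *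
    aeval (fun l => Polynomial.C (j (xa l)) +
      Polynomial.X * Polynomial.C (j (xb l) - j (xa l))) (P i)
  have heval : ∀ (u : Ω) (i : Fin (n + 1)), (f i).eval u =
      (j (X (Sum.inr 0)) + u * (j (X (Sum.inr 1)) - j (X (Sum.inr 0)))) *
        aeval (fun l => j (xa l) + u * (j (xb l) - j (xa l))) (P i) := by
    intro u i
    simp only [f]
    rw [Polynomial.eval_mul, Polynomial.eval_add, Polynomial.eval_mul, Polynomial.eval_C,
      Polynomial.eval_C, Polynomial.eval_X]
    congr 1
    have h1 := MvPolynomial.comp_aeval_apply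
      (f := fun l => Polynomial.C (j (xa l)) + Polynomial.X * Polynomial.C (j (xb l) - j (xa l)))
      ((Polynomial.aeval u : Polynomial Ω →ₐ[Ω] Ω).restrictScalars k) (P i)
    simp only [AlgHom.restrictScalars_apply, map_add, map_mul, Polynomial.aeval_C,
      Polynomial.aeval_X, Algebra.algebraMap_self, RingHom.id_apply] at h1
    rw [← h1, Polynomial.coe_aeval_eq_eval]
  refine ⟨Ω, inferInstance, inferInstance, f, inferInstance, ?_, ?_⟩
  · rintro G ⟨d, hd⟩ hG
    simp only [f]
    rw [aeval_mul_form _ _ hd]
    have h1 := (hP G ⟨d, hd⟩).1 hG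
    have h2 := congrArg (aeval (fun l => Polynomial.C (j (xa l)) +
      Polynomial.X * Polynomial.C (j (xb l) - j (xa l)) : Fin m → Polynomial Ω)) h1
    rw [map_zero, ← AlgHom.comp_apply, comp_aeval] at h2
    rw [h2, mul_zero]
  · intro G hG a ha b hb
    have h0 : ∀ i, (f i).eval 0 = j (X (Sum.inr 0) * aeval xa (P i)) := by
      intro i
      rw [heval, zero_mul, add_zero, map_mul]
      congr 1
      rw [← AlgHom.comp_apply, comp_aeval]
      congr 2
      funext l
      rw [zero_mul, add_zero]
    have h1 : ∀ i, (f i).eval 1 = j (X (Sum.inr 1) * aeval xb (P i)) := by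
      intro i
      rw [heval, one_mul, map_mul]
      congr 1
      · ring
      rw [← AlgHom.comp_apply, comp_aeval]
      congr 2
      funext l
      ring
    have hR : aeval (Sum.elim (fun i => X (Sum.inr 0) * aeval xa (P i))
        (fun i => X (Sum.inr 1) * aeval xb (P i)) : Fin (n + 1) ⊕ Fin (n + 1) → R) G = 0 := by
      apply hinj
      change j _ = j _
      rw [map_zero, ← hG, ← AlgHom.comp_apply, comp_aeval]
      congr 2
      funext i
      rcases i with i | i
      · exact (h0 i).symm
      · exact (h1 i).symm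
    have hpt : ∀ (α0 β0 : k) (a0 b0 : Fin m → k),
        aeval (Sum.elim (fun i => α0 * eval a0 (P i)) (fun i => β0 * eval b0 (P i))) G = 0 := by
      intro α0 β0 a0 b0
      have h2 := congrArg (aeval (Sum.elim (Sum.elim a0 b0) ![α0, β0] : τ → k)) hR
      rw [map_zero, ← AlgHom.comp_apply, comp_aeval] at h2
      rw [← h2]
      congr 2
      funext i
      rcases i with i | i
      · simp only [Sum.elim_inl, map_mul, aeval_X, Sum.elim_inr, Matrix.cons_val_zero]
        rw [← AlgHom.comp_apply, comp_aeval, ← aeval_eq_eval]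
        congr 3
        funext l
        simp only [xa, aeval_X, Sum.elim_inl]
      · simp only [Sum.elim_inr, map_mul, aeval_X, Matrix.cons_val_one]
        rw [← AlgHom.comp_apply, comp_aeval, ← aeval_eq_eval]
        congr 3
        funext l
        simp only [xb, aeval_X, Sum.elim_inl, Sum.elim_inr]
    have hstep : ∀ (β0 : k) (b0 : Fin m → k),
        aeval (Sum.elim a (fun i => β0 * eval b0 (P i))) G = 0 := by
      intro β0 b0
      have h2 := unir_zero hP (G1 := aeval (Sum.elim (fun i => X i)
        (fun i => C (β0 * eval b0 (P i))) :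
          Fin (n + 1) ⊕ Fin (n + 1) → MvPolynomial (Fin (n + 1)) k) G) (by
        intro α0 a0
        rw [← hpt α0 β0 a0 b0, ← AlgHom.comp_apply, comp_aeval]
        congr 2
        funext i
        rcases i with i | i
        · simp only [Sum.elim_inl, aeval_X]
        · simp only [Sum.elim_inr, aeval_C, Algebra.algebraMap_self, RingHom.id_apply]) a ha
      rw [← h2, ← AlgHom.comp_apply, comp_aeval]
      congr 2
      funext i
      rcases i with i | i
      · simp only [Sum.elim_inl, aeval_X]
      · simp only [Sum.elim_inr, aeval_C, Algebra.algebraMap_self, RingHom.id_apply]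
    have h2 := unir_zero hP (G1 := aeval (Sum.elim (fun i => C (a i)) (fun i => X i) :
        Fin (n + 1) ⊕ Fin (n + 1) → MvPolynomial (Fin (n + 1)) k) G) (by
      intro β0 b0
      rw [← hstep β0 b0, ← AlgHom.comp_apply, comp_aeval]
      congr 2
      funext i
      rcases i with i | i
      · simp only [Sum.elim_inl, aeval_C, Algebra.algebraMap_self, RingHom.id_apply]
      · simp only [Sum.elim_inr, aeval_X]) b hb
    rw [← h2, ← AlgHom.comp_apply, comp_aeval]
    congr 2
    funext i
    rcases i with i | i
    · simp only [Sum.elim_inl, aeval_C, Algebra.algebraMap_self, RingHom.id_apply]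
    · simp only [Sum.elim_inr, aeval_X]

end Pool.Agent.TH710.WH
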