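import Pool.Agent.W560.HP.Stm2

/-!
Definitions: linear disjointness, rational points and the weak Hilbert property of schemes.
-/

set_option autoImplicit false

open AlgebraicGeometry CategoryTheory

namespace Pool.Agent.TH710.WH

/-- The extensions `K` and `k'` of `k` are linearly disjoint in `L`. -/
def LinDisjoint (k k' K L : Type) [Field k] [Field k'] [Field K] [Field L] [Algebra k K]
    [Algebra k' L] [Algebra K L] : Prop :=
  ∀ (m : ℕ) (u : Fin m → K), LinearIndependent k u →
    LinearIndependent k' (fun i => algebraMap K L (u i))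

/-- `K` is a field of rational functions over `k`: it is generated by finitely many algebraically
independent elements. -/
def PurelyTranscendental (k K : Type) [Field k] [Field K] [Algebra k K] : Prop :=
  ∃ (σ : Type) (_ : Finite σ) (t : σ → K), AlgebraicIndependent k t ∧
    IntermediateField.adjoin k (Set.range t) = ⊤

/-- The function field of the integral `k`-scheme `X` is `K`. -/
def HasFunctionField (k K : Type) [Field k] [Field K] [Algebra k K] (X : Scheme.{0})
    [IsIntegral X] (f : X ⟶ Spec (CommRingCat.of k)) : Prop :=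
  ∃ e : X.functionField ≃+* K, ∀ a : k, e (W560.HP.toFF k X f a) = algebraMap k K a

/-- The `k`-points of the `k`-scheme `X` are dense. -/
def RationalPointsDense (k : Type) [Field k] (X : Scheme.{0})
    (f : X ⟶ Spec (CommRingCat.of k)) : Prop :=
  Dense {x : X | ∃ s : Spec (CommRingCat.of k) ⟶ X, s ≫ f = 𝟙 _ ∧ x ∈ Set.range s.base}

/-- The weak Hilbert property of the `k`-scheme `X`: for every finite family of finite surjective
morphisms `π i : Y i ⟶ X`, `Y i` integral and normal, none of them étale, the `k`-points of `X`
which are not images of `k`-points of the `Y i` are dense in `X`. -/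
def WeakHilbertProperty (k : Type) [Field k] (X : Scheme.{0}) (f : X ⟶ Spec (CommRingCat.of k)) :
    Prop :=
  ∀ (q : ℕ) (Y : Fin q → Scheme.{0}) (π : ∀ i, Y i ⟶ X), (∀ i, IsIntegral (Y i)) →
    (∀ i (y : Y i), IsIntegrallyClosed ((Y i).presheaf.stalk y)) →
    (∀ i, IsFinite (π i)) → (∀ i, Surjective (π i)) → (∀ i, ¬ Etale (π i)) →
    Dense {x : X | ∃ s : Spec (CommRingCat.of k) ⟶ X, s ≫ f = 𝟙 _ ∧ x ∈ Set.range s.base ∧
      ∀ i (t : Spec (CommRingCat.of k) ⟶ Y i), t ≫ π i ≠ s}

end Pool.Agent.TH710.WH
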