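import Pool.Agent.W602.GT.MordDefs

/-!
Weak approximation for projective varieties.
-/

set_option autoImplicit false

open MvPolynomial Pool.Agent.W602.GT

namespace Pool.Agent.TH710.WH

variable {n : ℕ}

/-- The points over the field `E` of the projective variety over `k` with generic point `y` (as a
cone): nonzero vectors at which all forms over `k` vanish which vanish at `y`. -/
def PtsOver {k : Type} [Field k] {K : Type} [Field K] [Algebra k K] (y : Fin (n + 1) → K)
    (E : Type) [Field E] [Algebra k E] : Set (Fin (n + 1) → E) :=
  {x | x ≠ 0 ∧ ∀ G : MvPolynomial (Fin (n + 1)) k, IsForm G → val y G = 0 → val x G = 0}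

/-- The Hasse principle and weak approximation for the projective variety `V` over `k` with generic
point `y`: let `E i`, `i ∈ S`, be finitely many Hausdorff topological fields containing `k` for
which weak approximation holds, that is, `k` is dense in their product (for instance the completions
of a number field at finitely many places), and let `U i` be an open subset of `E i ^ (n + 1)`
which contains a point of `V`. Then `V` has a point over `k` which lies in all `U i`. In
particular (`S` empty) `V` has a point over `k`. -/
def WeakApproximation (k : Type) [Field k] {K : Type} [Field K] [Algebra k K]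
    (y : Fin (n + 1) → K) : Prop :=
  ∀ (S : Type) [Finite S] (E : S → Type) [∀ i, Field (E i)] [∀ i, Algebra k (E i)]
    [∀ i, TopologicalSpace (E i)] [∀ i, IsTopologicalRing (E i)] [∀ i, T2Space (E i)],
    DenseRange (fun (a : k) (i : S) => algebraMap k (E i) a) →
    ∀ U : ∀ i, Set (Fin (n + 1) → E i), (∀ i, IsOpen (U i)) →
      (∀ i, ∃ x ∈ PtsOver (k := k) y (E i), x ∈ U i) →
      ∃ z ∈ PtsOver (k := k) y k, ∀ i, (fun j => algebraMap k (E i) (z j)) ∈ U i

/-- The projective variety over `k` with generic point `y` is a linear subspace defined over `k`:
there are vectors `v b` in `k ^ (n + 1)` such that for all extension fields `E` of `k` its points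
over `E` are their nonzero linear combinations. -/
def IsLinearOver (k : Type) [Field k] {K : Type} [Field K] [Algebra k K]
    (y : Fin (n + 1) → K) : Prop :=
  ∃ (r : ℕ) (v : Fin r → Fin (n + 1) → k), ∀ (E : Type) [Field E] [Algebra k E]
    (x : Fin (n + 1) → E), x ∈ PtsOver (k := k) y E ↔
      x ≠ 0 ∧ ∃ s : Fin r → E, x = fun i => ∑ b, s b * algebraMap k E (v b i)

end Pool.Agent.TH710.WH
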