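import Pool.Agent.TH710.SP.Res
import Pool.Agent.TH710.WH.Defs

/-!
Varieties which become linear spaces over an extension of the base field are rational.
-/

set_option autoImplicit false

open MvPolynomial Pool.Agent.W602.GT Pool.Agent.W603.GW Pool.Agent.W603.GR Pool.Agent.TH710.ND
  Pool.Agent.TH710.SP

namespace Pool.Agent.TH710.WH

section

variable {k k' K L : Type} [Field k] [Field k'] [Field K] [Field L] [Algebra k k'] [Algebra k K]
  [Algebra k L] [Algebra k' L] [Algebra K L] [IsScalarTower k k' L] [IsScalarTower k K L] {n : ℕ}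

theorem lin_tower (l : Fin (n + 1) → k) (y : Fin (n + 1) → K) :
    lin (fun i => algebraMap k k' (l i)) (fun i => algebraMap K L (y i)) =
      algebraMap K L (lin l y) := by
  unfold lin
  rw [map_sum]
  refine Finset.sum_congr rfl fun i _ => ?_
  rw [map_mul, ← IsScalarTower.algebraMap_apply k k' L, ← IsScalarTower.algebraMap_apply k K L]

theorem frame_tower (hd : LinDisjoint k k' K L) {y : Fin (n + 1) → K} {r : ℕ}
    {m v : Fin r → Fin (n + 1) → k} (h : Frame y m v) :
    Frame (fun i => algebraMap K L (y i)) (fun b i => algebraMap k k' (m b i))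
      (fun b i => algebraMap k k' (v b i)) := by
  refine ⟨?_, fun i => ?_⟩
  · have h1 := hd r _ h.ind
    have h2 : (fun b => lin (fun i => algebraMap k k' (m b i)) (fun i => algebraMap K L (y i))) =
        fun b => algebraMap K L (lin (m b) y) := by
      funext b
      exact lin_tower (m b) y
    rw [h2]
    exact h1
  · rw [h.dec i, map_sum]
    refine Finset.sum_congr rfl fun b _ => ?_
    rw [lin_tower, map_mul, ← IsScalarTower.algebraMap_apply k k' L,
      ← IsScalarTower.algebraMap_apply k K L]

/-- **Descent.** -/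
theorem rational_of_lin [Infinite k'] (hd : LinDisjoint k k' K L) {y : Fin (n + 1) → K}
    (hy0 : y ≠ 0) (hgen : coords k y = ⊤)
    (hvar : ∀ x ∈ Hull k' (fun i => algebraMap K L (y i)),
      ∀ G : MvPolynomial (Fin (n + 1)) k', IsForm G →
      Pool.Agent.W602.GT.val (fun i => algebraMap K L (y i)) G = 0 →
      Pool.Agent.W602.GT.val x G = 0) :
    PurelyTranscendental k K := by
  classical
  obtain ⟨r, m, v, -, h, -, -⟩ := exists_frame' (k := k) (y := y) (q := 0) (fun a => a.elim0)
    linearIndependent_empty_type
  have h' := frame_tower (k' := k') (L := L) hd h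
  have hP : LinPair (noQ k' n) (fun i => algebraMap K L (y i))
      (fun b i => algebraMap k k' (m b i)) (fun b i => algebraMap k k' (v b i))
      (fun a : Fin 0 => a.elim0) (fun j : Empty => j.elim) (fun j : Empty => j.elim) :=
    ⟨h', hvar, fun a => a.elim0, fun a => a.elim0, fun j => j.elim, fun j => j.elim,
      fun j => j.elim⟩
  have hr : 0 < r := by
    rw [Nat.pos_iff_ne_zero]
    rintro rfl
    apply hy0
    funext i
    rw [h.dec i]
    simp
  let b0 : Fin r := ⟨0, hr⟩
  have hz0 : ∀ b, lin (m b) y ≠ 0 := fun b => h.ind.ne_zero b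
  have hind := hP.alg_ind b0
  let σ' : {b : Fin r // b ≠ b0} → K := fun b => lin (m b.1) y / lin (m b0) y
  have hzmem : ∀ b, lin (m b) y / lin (m b0) y ∈ IntermediateField.adjoin k (Set.range σ') := by
    intro b
    by_cases hb : b = b0
    · rw [hb, div_self (hz0 b0)]
      exact one_mem _
    · exact IntermediateField.subset_adjoin k _ ⟨⟨b, hb⟩, rfl⟩
  have hymem : ∀ i, y i / lin (m b0) y ∈ IntermediateField.adjoin k (Set.range σ') := by
    intro i
    rw [h.dec i, Finset.sum_div]
    refine sum_mem fun b _ => ?_
    rw [mul_div_assoc]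
    exact mul_mem (IntermediateField.algebraMap_mem _ _) (hzmem b)
  have htop : IntermediateField.adjoin k (Set.range σ') = ⊤ := by
    rw [eq_top_iff, ← hgen]
    unfold coords
    rw [IntermediateField.adjoin_le_iff]
    rintro _ ⟨i, j, hj, rfl⟩
    have h1 := div_mem (hymem i) (hymem j)
    rwa [div_div_div_cancel_right₀ (hz0 b0)] at h1
  refine ⟨{b : Fin r // b ≠ b0}, inferInstance, σ', ?_, htop⟩
  have h2 : AlgebraicIndependent k (fun b : {b : Fin r // b ≠ b0} =>
      (IsScalarTower.toAlgHom k K L) (σ' b)) := by
    have h3 : (fun b : {b : Fin r // b ≠ b0} => (IsScalarTower.toAlgHom k K L) (σ' b)) =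
        fun b : {b : Fin r // b ≠ b0} =>
          lin (fun i => algebraMap k k' (m b.1 i)) (fun i => algebraMap K L (y i)) /
            lin (fun i => algebraMap k k' (m b0 i)) (fun i => algebraMap K L (y i)) := by
      funext b
      rw [lin_tower, lin_tower, IsScalarTower.coe_toAlgHom', map_div₀]
    rw [h3]
    exact hind.restrictScalars (FaithfulSMul.algebraMap_injective k k')
  exact AlgebraicIndependent.of_comp (IsScalarTower.toAlgHom k K L) h2

/-- **Special varieties given by nested sums over the algebraic closure.** -/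
theorem rational_of_special [IsAlgClosed k'] [CharZero k'] {ι : Type}
    {F : ι → MvPolynomial (Fin (n + 1)) k'} {s N H : ℕ}
    (hF : ∀ i, IsNested s N H (F i)) (hN : bnd n s H ≤ N)
    (hd : LinDisjoint k k' K L) {y : Fin (n + 1) → K} (hgen : coords k y = ⊤) {w : ℕ}
    (hy : SubVar F L w (fun i => algebraMap K L (y i)))
    (hcomp : IsComponent F (fun i => algebraMap K L (y i)))
    (hs : Special k' L w (fun _ => False)) : PurelyTranscendental k K := by
  have hinf : Infinite k' := inferInstance
  obtain ⟨r, q, m, v, e, a, c, h⟩ := lin_of_special hF (fun j => j.elim) hN (subQ hy)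
    (compQ hcomp) (by rw [offQ]; exact hs)
  refine rational_of_lin hd ?_ hgen h.var
  rintro rfl
  apply hy.ne
  funext i
  simp

end

end Pool.Agent.TH710.WH
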