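import Pool.Agent.TH710.WH.Conn3

/-!
The equivalences.
-/

set_option autoImplicit false

open FF MvPolynomial Pool.Agent.W603.LV Pool.Agent.W603.GR Pool.Agent.W603.GW
  Pool.Agent.W602.GT Pool.Agent.W603.GX Pool.Agent.W603.GY Pool.Agent.TH710.ND
  Pool.Agent.TH710.SP

namespace Pool.Agent.TH710.WH

variable {k : Type} [Field k] {n : ℕ} {ι : Type} {K : Type} [Field K] [Algebra k K]

theorem special_of_rational [IsAlgClosed k] [CharZero k] {w : ℕ} (hdim : Algebra.trdeg k K = w)
    (h : PurelyTranscendental k K) : Special k K w (fun _ => False) := by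
  classical
  obtain ⟨τ, hτ, σ', hind, htop⟩ := h
  have hbasis : IsTranscendenceBasis k σ' := by
    rw [hind.isTranscendenceBasis_iff_isAlgebraic]
    apply alg_adjoin
    rw [htop]
    exact ⟨fun x => isAlgebraic_algebraMap (A := K) (⟨x, trivial⟩ : (⊤ : IntermediateField k K))⟩
  obtain ⟨w', ⟨φ⟩⟩ := Finite.exists_equiv_fin τ
  let σ : Fin w' → K := σ' ∘ φ.symm
  have hσ : IsTranscendenceBasis k σ := hbasis.comp_equiv φ.symm
  obtain rfl : w' = w := by
    have h1 := hσ.cardinalMk_eq_trdeg
    rw [Cardinal.mk_fin, hdim] at h1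
    exact_mod_cast h1
  refine special_of_frame σ hσ ?_ fun _ _ h => h
  have h1 : Set.range σ = Set.range σ' := by
    ext x
    constructor
    · rintro ⟨b, rfl⟩
      exact ⟨φ.symm b, rfl⟩
    · rintro ⟨b, rfl⟩
      exact ⟨φ b, by simp [σ]⟩
  rw [h1, htop]

theorem rational_of_linear [IsAlgClosed k] {y : Fin (n + 1) → K} (hy0 : y ≠ 0)
    (hgen : coords k y = ⊤) (hl : IsLinear k y) : PurelyTranscendental k K := by
  have hinf : Infinite k := inferInstance
  refine rational_of_lin (k' := k) (L := K) (fun m u hu => ?_) hy0 hgen (var_of_linear hy0 hl)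
  simpa using hu

/-- **Five properties.** -/
theorem five [IsAlgClosed k] [CharZero k] (hn : 1 ≤ n)
    {F : ι → MvPolynomial (Fin (n + 1)) k} {s N H : ℕ} (hF : ∀ i, IsNested s N H (F i))
    (hN : bnd n s H ≤ N) {w : ℕ} {y : Fin (n + 1) → K}
    (hy : SubVar F K w y) (hcomp : IsComponent F y) :
    [IsLinear k y, PurelyTranscendental k K, Unirational k y, RationallyConnected k y,
      Special k K w (fun _ => False)].TFAE := by
  have hinf : Infinite k := inferInstance
  tfae_have 1 → 2 := rational_of_linear hy.ne hy.gen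
  tfae_have 2 → 5 := special_of_rational hy.dim
  tfae_have 5 → 1 := by
    intro hs
    obtain ⟨r, q, m, v, e, a, c, h⟩ := lin_of_special hF (fun j => j.elim) hN (subQ hy)
      (compQ hcomp) (by rw [offQ]; exact hs)
    exact h.isLinear
  tfae_have 1 → 3 := fun h => unirational_of_var (var_of_linear hy.ne h)
  tfae_have 3 → 4 := connected_of_unirational
  tfae_have 4 → 1 := linear_of_connected hn hF hN hy hcomp
  tfae_finish

end Pool.Agent.TH710.WH
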