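import Pool.Agent.TH710.WH.Desc
import Pool.Agent.TH710.WH.Sch

/-!
Varieties without tensor differentials.
-/

set_option autoImplicit false

open AlgebraicGeometry CategoryTheory
open MvPolynomial Pool.Agent.W602.GT Pool.Agent.W603.LV Pool.Agent.W603.GW Pool.Agent.W603.GR
  Pool.Agent.TH710.ND Pool.Agent.TH710.SP

namespace Pool.Agent.TH710.WH

theorem dense_of_rational {k : Type} [Field k] [CharZero k]
    (hk : ∃ S : Finset k, IntermediateField.adjoin ℚ (S : Set k) = ⊤) {K : Type} [Field K]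
    [Algebra k K] (hK : PurelyTranscendental k K) (X : Scheme.{0}) [IsIntegral X]
    (f : X ⟶ Spec (CommRingCat.of k)) [LocallyOfFiniteType f] (hX : HasFunctionField k K X f) :
    RationalPointsDense k X f := by
  obtain ⟨S, hS⟩ := hk
  have hkN : W560.HP.HilbNR k := Pool.Agent.W405.HP.hit k (Pool.Agent.W583.HP.fg k S hS)
  obtain ⟨σ, hσ, t, ht, hadj⟩ := hK
  have h1 : W560.HP.HPF k (⊤ : IntermediateField k K) :=
    Pool.Agent.W790.HP.hpf k K σ t ⊤ hkN ht hadj fun _ _ => IntermediateField.mem_top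
  have h2 : W560.HP.HPF k K :=
    Pool.Agent.W74.HP.hpi k _ _ ⟨IntermediateField.topEquiv⟩ h1
  obtain ⟨e, he⟩ := hX
  have h3 : W560.HP.HilbertProperty k X f := Pool.Agent.W253.HP.sch k X f _ e he h2
  have h4 := h3 0 (fun i => i.elim0) (fun i => i.elim0) (fun i => i.elim0)
    (fun i => i.elim0) (fun i => i.elim0) (fun i => i.elim0)
  refine h4.mono ?_
  rintro x ⟨s, hs, hx, -⟩
  exact ⟨s, hs, hx⟩

variable {k k' K L : Type} [Field k] [Field k'] [Field K] [Field L] [Algebra k k'] [Algebra k K]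
  [Algebra k L] [Algebra k' L] [Algebra K L] [IsScalarTower k k' L] [IsScalarTower k K L] {n : ℕ}

/-- **Tensor-free varieties given by nested sums over the algebraic closure.** -/
theorem rational_of_noTensors [IsAlgClosed k'] [CharZero k'] {ι : Type}
    {F : ι → MvPolynomial (Fin (n + 1)) k'} {s N H : ℕ}
    (hF : ∀ i, IsNested s N H (F i))
    (hN : n * ((H + 1) * (2 * s * (2 * s)) * ((2 * s + 1) *
      ((2 * s - 1) * (2 * s - 2) / 2))) + 1 ≤ N)
    (hd : LinDisjoint k k' K L) {y : Fin (n + 1) → K} (hgen : coords k y = ⊤) {w : ℕ}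
    (hy : SubVar F L w (fun i => algebraMap K L (y i)))
    (hcomp : IsComponent F (fun i => algebraMap K L (y i)))
    (hs : NoTensors k' L w (n * (n * ((H + 1) * (2 * s * (2 * s)) * ((2 * s + 1) *
      ((2 * s - 1) * (2 * s - 2) / 2)))))) : PurelyTranscendental k K := by
  have hinf : Infinite k' := inferInstance
  have h1 : tn (2 * s - 1) = (2 * s - 1) * (2 * s - 2) / 2 := by
    unfold tn
    rw [Fin.sum_univ_eq_sum_range (fun i => i), Finset.sum_range_id, Nat.sub_sub]
  obtain ⟨r, q, m, v, e, a, c, h⟩ := lin_of_noTensors hF (bnd_le hN) (subQ hy) (compQ hcomp)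
    (B := n * (n * ((H + 1) * (2 * s * (2 * s)) * ((2 * s + 1) *
      ((2 * s - 1) * (2 * s - 2) / 2))))) (by
      unfold bnd
      rw [h1, Nat.add_sub_cancel, mul_comm]) hs
  refine rational_of_lin hd ?_ hgen h.var
  rintro rfl
  apply hy.ne
  funext i
  simp

end Pool.Agent.TH710.WH
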