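import Pool.Agent.TH710.WH.Five
import Pool.Agent.TH710.WH.Defs3

/-!
Linear subspaces over the base field and weak approximation.
-/

set_option autoImplicit false

open FF MvPolynomial Pool.Agent.W603.LV Pool.Agent.W603.GR Pool.Agent.W603.GW
  Pool.Agent.W602.GT Pool.Agent.W603.GX Pool.Agent.W603.GY Pool.Agent.TH710.ND
  Pool.Agent.TH710.SP

namespace Pool.Agent.TH710.WH

section

variable {k : Type} [Field k] {n : ℕ} {K : Type} [Field K] [Algebra k K]

/-- a frame which describes the points over all extension fields -/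
structure FrameOver (y : Fin (n + 1) → K) {r : ℕ} (m v : Fin r → Fin (n + 1) → k) : Prop where
  pos : 0 < r
  frame : Frame y m v
  pts : ∀ (E : Type) [Field E] [Algebra k E] (s : Fin r → E),
    ∀ G : MvPolynomial (Fin (n + 1)) k, IsForm G → Pool.Agent.W602.GT.val y G = 0 →
      Pool.Agent.W602.GT.val (fun i => ∑ b, s b * algebraMap k E (v b i)) G = 0

theorem frameOver_of_lin {k' L : Type} [Field k'] [Field L] [Algebra k k'] [Algebra k L]
    [Algebra k' L] [Algebra K L] [IsScalarTower k k' L] [IsScalarTower k K L] [Infinite k']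
    (hd : LinDisjoint k k' K L) {y : Fin (n + 1) → K} (hy0 : y ≠ 0)
    (hvar : ∀ x ∈ Hull k' (fun i => algebraMap K L (y i)),
      ∀ G : MvPolynomial (Fin (n + 1)) k', IsForm G →
      Pool.Agent.W602.GT.val (fun i => algebraMap K L (y i)) G = 0 →
      Pool.Agent.W602.GT.val x G = 0) :
    ∃ (r : ℕ) (m v : Fin r → Fin (n + 1) → k), FrameOver y m v := by
  classical
  obtain ⟨r, m, v, -, h, -, -⟩ := exists_frame' (k := k) (y := y) (q := 0) (fun a => a.elim0)
    linearIndependent_empty_type
  have h' := frame_tower (k' := k') (L := L) hd h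
  refine ⟨r, m, v, ?_, h, ?_⟩
  · rw [Nat.pos_iff_ne_zero]
    rintro rfl
    apply hy0
    funext i
    rw [h.dec i]
    simp
  intro E _ _ s G hG hyG
  -- the restriction of `G` to the linear space is zero
  have hG' : IsForm (MvPolynomial.map (algebraMap k k') G) := by
    obtain ⟨d, hd'⟩ := hG
    exact ⟨d, hd'.map _⟩
  have h1 : Pool.Agent.W602.GT.val (fun i => algebraMap K L (y i))
      (MvPolynomial.map (algebraMap k k') G) = 0 := by
    unfold Pool.Agent.W602.GT.val at hyG ⊢
    rw [MvPolynomial.aeval_map_algebraMap]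
    have h2 := MvPolynomial.aeval_algebraMap_apply L y G
    rw [hyG, map_zero] at h2
    exact h2
  have h2 := h'.zero_of_hull fun x hx => hvar x hx _ hG' h1
  rw [MvPolynomial.aeval_map_algebraMap] at h2
  have h3 : MvPolynomial.map (algebraMap k k')
      (aeval (fun i => ∑ b, C (v b i) * X b : Fin (n + 1) → MvPolynomial (Fin r) k) G) = 0 := by
    rw [← h2]
    have h4 := MvPolynomial.comp_aeval_apply
      (f := (fun i => ∑ b, C (v b i) * X b : Fin (n + 1) → MvPolynomial (Fin r) k))
      (MvPolynomial.mapAlgHom (Algebra.ofId k k') : MvPolynomial (Fin r) k →ₐ[k]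
        MvPolynomial (Fin r) k') G
    have h5 : ∀ p : MvPolynomial (Fin r) k, (MvPolynomial.mapAlgHom (Algebra.ofId k k') :
        MvPolynomial (Fin r) k →ₐ[k] MvPolynomial (Fin r) k') p =
        MvPolynomial.map (algebraMap k k') p := fun p => rfl
    rw [h5] at h4
    rw [h4]
    congr 2
    funext i
    rw [h5]
    simp only [map_sum, map_mul, MvPolynomial.map_C, MvPolynomial.map_X]
  have h4 : aeval (fun i => ∑ b, C (v b i) * X b : Fin (n + 1) → MvPolynomial (Fin r) k) G = 0 := by
    apply MvPolynomial.map_injective _ (algebraMap k k').injective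
    rw [h3, map_zero]
  have h5 := congrArg (aeval s) h4
  rw [map_zero, ← AlgHom.comp_apply, comp_aeval] at h5
  unfold Pool.Agent.W602.GT.val
  rw [← h5]
  congr 2
  funext i
  rw [map_sum]
  refine Finset.sum_congr rfl fun b _ => ?_
  rw [map_mul, aeval_C, aeval_X, mul_comm]

theorem FrameOver.repr {y : Fin (n + 1) → K} {r : ℕ} {m v : Fin r → Fin (n + 1) → k}
    (h : FrameOver y m v) {E : Type} [Field E] [Algebra k E] {x : Fin (n + 1) → E}
    (hx : x ∈ PtsOver (k := k) y E) (i : Fin (n + 1)) :
    x i = ∑ b, lin (m b) x * algebraMap k E (v b i) := by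
  classical
  -- the linear form `x_i - sum_b v_b,i m_b`
  have h1 : Pool.Agent.W602.GT.val y (X i - ∑ b, C (v b i) * lf (m b)) = 0 := by
    unfold Pool.Agent.W602.GT.val
    rw [map_sub, aeval_X, map_sum, h.frame.dec i, sub_eq_zero]
    refine Finset.sum_congr rfl fun b _ => ?_
    rw [map_mul, aeval_C]
    have h2 := val_lf (m b) y
    unfold Pool.Agent.W602.GT.val at h2
    rw [h2]
  have h2 := hx.2 _ ⟨1, by
    apply IsHomogeneous.sub
    · exact isHomogeneous_X k i
    · apply IsHomogeneous.sum
      intro b _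
      have h3 := (isHomogeneous_C (Fin (n + 1)) (v b i)).mul (lf_hom (m b))
      simpa using h3⟩ h1
  unfold Pool.Agent.W602.GT.val at h2
  rw [map_sub, aeval_X, map_sum, sub_eq_zero] at h2
  rw [h2]
  refine Finset.sum_congr rfl fun b _ => ?_
  rw [map_mul, aeval_C]
  have h3 := val_lf (m b) x
  unfold Pool.Agent.W602.GT.val at h3
  rw [h3, mul_comm]

theorem FrameOver.linear {y : Fin (n + 1) → K} {r : ℕ} {m v : Fin r → Fin (n + 1) → k}
    (h : FrameOver y m v) : IsLinearOver k y := by
  refine ⟨r, v, fun E _ _ x => ⟨fun hx => ⟨hx.1, fun b => lin (m b) x, _root_.funext fun i => h.repr hx i⟩, ?_⟩⟩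
  rintro ⟨hx0, s, rfl⟩
  exact ⟨hx0, h.pts E s⟩

theorem FrameOver.weak {y : Fin (n + 1) → K} {r : ℕ} {m v : Fin r → Fin (n + 1) → k}
    (h : FrameOver y m v) : WeakApproximation k y := by
  classical
  intro S _ E _ _ _ _ _ hdense U hU hne
  choose x hx hxU using hne
  rcases isEmpty_or_nonempty S with hS | ⟨⟨i0⟩⟩
  · let s : Fin r → k := Pi.single ⟨0, h.pos⟩ 1
    refine ⟨fun i => ∑ b, s b * algebraMap k k (v b i), ⟨?_, h.pts k s⟩, fun i => hS.elim i⟩
    intro h0
    have h1 : lin (m ⟨0, h.pos⟩) (fun i => ∑ b, s b * algebraMap k k (v b i)) = 0 := by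
      rw [h0]
      unfold lin
      simp
    rw [lin_sum] at h1
    simp only [h.frame.dual, s] at h1
    rw [Finset.sum_eq_single ⟨0, h.pos⟩] at h1
    · simp at h1
    · intro b _ hb
      rw [Pi.single_eq_of_ne hb, zero_mul]
    · intro h2
      exact absurd (Finset.mem_univ _) h2
  · let O : Set (Fin r → ∀ i, E i) := ⋂ i : S,
      {t | (fun j => ∑ b, t b i * algebraMap k (E i) (v b j)) ∈ U i ∩ {0}ᶜ}
    have hO : IsOpen O := by
      apply isOpen_iInter_of_finite
      intro i
      have h1 : Continuous fun t : Fin r → ∀ i, E i =>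
          (fun j => ∑ b, t b i * algebraMap k (E i) (v b j) : Fin (n + 1) → E i) := by
        fun_prop
      exact ((hU i).inter isOpen_compl_singleton).preimage h1
    have hD : DenseRange (Pi.map fun (_ : Fin r) (a : k) (i : S) => algebraMap k (E i) a) :=
      DenseRange.piMap fun _ => hdense
    obtain ⟨s, hs⟩ := hD.exists_mem_open hO ⟨fun b i => lin (m b) (x i), by
      rw [Set.mem_iInter]
      intro i
      have h1 : (fun j => ∑ b, lin (m b) (x i) * algebraMap k (E i) (v b j)) = x i :=
        _root_.funext fun j => (h.repr (hx i) j).symm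
      change (fun j => ∑ b, lin (m b) (x i) * algebraMap k (E i) (v b j)) ∈ U i ∩ {0}ᶜ
      rw [h1]
      exact ⟨hxU i, (hx i).1⟩⟩
    rw [Set.mem_iInter] at hs
    have hval : ∀ i, (fun j => algebraMap k (E i) (∑ b, s b * algebraMap k k (v b j))) ∈
        U i ∩ {0}ᶜ := by
      intro i
      have h1 := hs i
      have h2 : (fun j => algebraMap k (E i) (∑ b, s b * algebraMap k k (v b j))) =
          fun j => ∑ b, (Pi.map (fun (_ : Fin r) (a : k) (i : S) => algebraMap k (E i) a) s) b i *
            algebraMap k (E i) (v b j) := by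
        funext j
        rw [map_sum]
        refine Finset.sum_congr rfl fun b _ => ?_
        rw [map_mul]
        rfl
      rw [h2]
      exact h1
    refine ⟨fun i => ∑ b, s b * algebraMap k k (v b i), ⟨?_, h.pts k s⟩, fun i => (hval i).1⟩
    intro h0
    apply (hval i0).2
    rw [Set.mem_singleton_iff]
    funext j
    have h1 := congrFun h0 j
    simp only [Pi.zero_apply] at h1 ⊢
    rw [h1, map_zero]

/-- **Rationally connected varieties over a field `k`, given by nested sums over `k'`.** -/
theorem weak_of_connected {k' L : Type} [Field k'] [Field L] [Algebra k k'] [Algebra k L]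
    [Algebra k' L] [Algebra K L] [IsScalarTower k k' L] [IsScalarTower k K L] [IsAlgClosed k']
    [CharZero k'] (hn : 1 ≤ n) {ι : Type} {F : ι → MvPolynomial (Fin (n + 1)) k'} {s N H : ℕ}
    (hF : ∀ i, IsNested s N H (F i)) (hN : bnd n s H ≤ N)
    (hd : LinDisjoint k k' K L) {y : Fin (n + 1) → K} {w : ℕ}
    (hy : SubVar F L w (fun i => algebraMap K L (y i)))
    (hcomp : IsComponent F (fun i => algebraMap K L (y i)))
    (hc : RationallyConnected k' (fun i => algebraMap K L (y i))) :
    IsLinearOver k y ∧ WeakApproximation k y := by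
  have hinf : Infinite k' := inferInstance
  have hl := linear_of_connected hn hF hN hy hcomp hc
  have hy0 : y ≠ 0 := by
    rintro rfl
    apply hy.ne
    funext i
    simp
  obtain ⟨r, m, v, h⟩ := frameOver_of_lin hd hy0 (var_of_linear hy.ne hl)
  exact ⟨h.linear, h.weak⟩

end

end Pool.Agent.TH710.WH
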